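import Pool.Agent.H.MP_e23efd_co.A

namespace Pool.Agent.Results.MP_e23efd_co.Yes

open Finset Pool.Agent.H.MP_e23efd_co

theorem vand (p : ℕ) [Fact p.Prime] (t x y k : ℕ) :
    (((x + p ^ t * y).choose k : ℕ) : ZMod p)
      = ∑ κ ∈ range (k + 1), if p ^ t * κ ≤ k then
        ((y.choose κ * x.choose (k - p ^ t * κ) : ℕ) : ZMod p) else 0 := by
  have hP : 0 < p ^ t := pow_pos (Fact.out : p.Prime).pos _
  rw [← Polynomial.coeff_one_add_X_pow (ZMod p), pow_add, pow_mul, add_pow_char_pow, one_pow,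
    add_comm (1 : Polynomial (ZMod p)) (_ ^ p ^ t), add_pow (_ ^ p ^ t), mul_sum, Polynomial.finset_sum_coeff]
  have : ∀ κ, Polynomial.coeff ((1 + Polynomial.X) ^ x * ((Polynomial.X ^ p ^ t) ^ κ * 1 ^ (y - κ)
      * (y.choose κ : Polynomial (ZMod p)))) k = if p ^ t * κ ≤ k then
        ((y.choose κ * x.choose (k - p ^ t * κ) : ℕ) : ZMod p) else 0 := by
    intro κ
    rw [one_pow, mul_one, ← mul_assoc, Polynomial.coeff_mul_natCast, ← pow_mul,
      Polynomial.coeff_mul_X_pow', Polynomial.coeff_one_add_X_pow]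
    split_ifs <;> simp [mul_comm]
  simp only [this]
  rw [sum_subset (range_subset_range.2 (le_max_left (y + 1) (k + 1))),
    sum_subset (range_subset_range.2 (le_max_right (y + 1) (k + 1)))]
  · intro κ _ h
    rw [if_neg]
    simp only [mem_range, not_lt] at h
    nlinarith
  · intro κ _ h
    simp only [mem_range, not_lt] at h
    rw [Nat.choose_eq_zero_of_lt (by omega)]
    simp

theorem vand_small (p : ℕ) [Fact p.Prime] (t x y k : ℕ) (hk : k < p ^ t) :
    (((x + p ^ t * y).choose k : ℕ) : ZMod p) = x.choose k := by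
  rw [vand, sum_range_succ', sum_eq_zero]
  · simp
  · intro κ _
    rw [if_neg]; nlinarith

theorem ind (p : ℕ) [Fact p.Prime] (r x : ℕ) :
    (((x + (p ^ r - 1)).choose (p ^ r - 1) : ℕ) : ZMod p)
      = if (x : ZMod (p ^ r)) = 0 then 1 else 0 := by
  have hP : 0 < p ^ r := pow_pos (Fact.out : p.Prime).pos _
  rw [← Nat.mod_add_div (x + (p ^ r - 1)) (p ^ r), vand_small _ _ _ _ _ (by omega)]
  simp only [ZMod.natCast_eq_zero_iff]
  have h1 := Nat.mod_lt (x + (p ^ r - 1)) hP
  split_ifs with h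
  · obtain ⟨c, rfl⟩ := h
    rw [Nat.mul_add_mod, Nat.mod_eq_of_lt (by omega)]
    simp
  · rw [Nat.choose_eq_zero_of_lt]
    · simp
    · by_contra h2
      apply h
      have h3 : (x + (p ^ r - 1)) % p ^ r = p ^ r - 1 := by omega
      have h4 := Nat.mod_add_div (x + (p ^ r - 1)) (p ^ r)
      exact ⟨(x + (p ^ r - 1)) / p ^ r, by omega⟩

theorem ch_one (p : ℕ) [Fact p.Prime] {s k : ℕ} (hk : p ^ s = k + 1) (j : ℕ) :
    ((((k + 1) * j + k).choose k : ℕ) : ZMod p) = 1 := by
  rw [add_comm, ← hk, vand_small _ _ _ _ _ (by omega)]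
  simp

theorem NN_one (p : ℕ) [Fact p.Prime] {s k : ℕ} (hk : p ^ s = k + 1) (n : ℕ) :
    (NN k n : ZMod p) = 1 := by
  simp only [NN, Nat.cast_prod, ch_one p hk, prod_const_one]

variable {ι : Type*} [DecidableEq ι]

theorem transfer (p : ℕ) (J : Finset ι) (F : Finset ι → ℕ) (c : ℕ)
    (h : Dl J (fun I => (F I : ℚ)) = c) :
    ∑ I ∈ J.powerset, (-1 : ZMod p) ^ (I.card + J.card) * F I = c := by
  have h1 : ∑ I ∈ J.powerset, (-1 : ℤ) ^ (I.card + J.card) * F I = c := by
    have : ∑ I ∈ J.powerset, (-1 : ℚ) ^ (I.card + J.card) * F I = c := h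
    exact_mod_cast this
  have := congrArg (Int.cast : ℤ → ZMod p) h1
  push_cast at this
  exact this

theorem es_small (a : ι → ℕ) {k : ℕ} {I : Finset ι} (h : I.card < k) : es a k I = 0 := by
  rw [es, powersetCard_eq_empty.2 h, sum_empty]

theorem es_insert (a : ι → ℕ) (k : ℕ) {I : Finset ι} {j : ι} (h : j ∉ I) :
    es a (k + 1) (insert j I) = es a (k + 1) I + a j * es a k I := by
  rw [es, powersetCard_succ_insert h, sum_union, sum_image, es, es, mul_sum]
  · congr 1
    refine sum_congr rfl fun B hB => prod_insert fun hj => h ((mem_powersetCard.1 hB).1 hj)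
  · intro B hB B' hB' e
    have h1 : j ∉ B := fun hj => h ((mem_powersetCard.1 (mem_coe.1 hB)).1 hj)
    have h2 : j ∉ B' := fun hj => h ((mem_powersetCard.1 (mem_coe.1 hB')).1 hj)
    rw [← erase_insert h1, ← erase_insert h2, e]
  · rw [disjoint_left]
    intro B hB hB'
    obtain ⟨C, -, rfl⟩ := mem_image.1 hB'
    exact h ((mem_powersetCard.1 hB).1 (mem_insert_self _ _))

variable [Fintype ι]

theorem units (p : ℕ) [Fact p.Prime] {r s k : ℕ} (hr : 1 ≤ r) (hk : p ^ s = k + 1) (a : ι → ℕ)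
    (hc : Fintype.card ι = (k + 1) * p ^ r - 1)
    (hz : ∀ I : Finset ι, k + 1 ≤ I.card → (es a (k + 1) I : ZMod (p ^ r)) ≠ 0) (i : ι) :
    ¬ p ∣ a i := by
  have hq : 1 < p ^ r := Nat.one_lt_pow (by omega) (Fact.out : p.Prime).one_lt
  obtain ⟨n, hn⟩ : ∃ n, p ^ r = n + 2 := ⟨p ^ r - 2, by omega⟩
  obtain ⟨J, hJ1, -, hJ⟩ := exists_subsuperset_card_eq (s := {i}) (t := univ)
    (n := (k + 1) * (p ^ r - 1)) (subset_univ _) (by simp [hn]; nlinarith)
    (by rw [card_univ, hc, hn]; apply Nat.le_sub_one_of_lt; simp)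
  have h1 := Dl_choose a k (X := fun I => es a (k + 1) I + (p ^ r - 1))
    (const_mem ((p ^ r - 1 : ℕ) : ℚ) k) (by funext I; simp) (p ^ r - 1) J hJ
  have h2 := transfer p J _ (NN k (p ^ r - 1) * ∏ i ∈ J, a i) (by rw [h1]; push_cast; rfl)
  simp only [ind] at h2
  rw [sum_congr rfl (g := fun I => (-1 : ZMod p) ^ J.card
    * if I.card < k + 1 then (-1) ^ I.card else 0), ← mul_sum,
    sum_powerset_apply_card (fun m => if m < k + 1 then (-1 : ZMod p) ^ m else 0)] at h2
  · have hJ2 : J.card = ((k + 1) * n + k) + 1 := by rw [hJ, hn]; simp; ring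
    rw [← sum_subset (s₁ := range (k + 1)) (range_subset_range.2 (by rw [hJ2]; omega))
      (fun m _ hm => by rw [if_neg (by simpa using hm), smul_zero]), hJ2] at h2
    have h3 := congrArg (Int.cast : ℤ → ZMod p)
      (Int.alternating_sum_range_choose_eq_choose (n := (k + 1) * n + k) (m := k))
    push_cast at h3
    rw [ch_one p hk] at h3
    rw [sum_congr rfl (g := fun m => (-1 : ZMod p) ^ m * (((k + 1) * n + k + 1).choose m))
      (fun m hm => by rw [if_pos (mem_range.1 hm), nsmul_eq_mul, mul_comm]), h3] at h2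
    intro hd
    have : ((NN k (p ^ r - 1) * ∏ i ∈ J, a i : ℕ) : ZMod p) = 0 := by
      rw [ZMod.natCast_eq_zero_iff]
      exact Dvd.dvd.mul_left (hd.trans (dvd_prod_of_mem _ (hJ1 (mem_singleton_self _)))) _
    rw [this] at h2
    simp at h2
  · intro I _
    by_cases h : I.card < k + 1
    · rw [if_pos h, es_small a h, pow_add]; simp [mul_comm]
    · rw [if_neg h, if_neg (hz I (by omega))]; simp

theorem const (p : ℕ) [Fact p.Prime] {r s k : ℕ} (hr : 1 ≤ r) (hk : p ^ s = k + 1) (hk1 : 1 ≤ k)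
    (a : ι → ℕ) (hc : Fintype.card ι = (k + 1) * p ^ r - 1)
    (hz : ∀ I : Finset ι, k + 1 ≤ I.card → (es a (k + 1) I : ZMod (p ^ r)) ≠ 0) (i j : ι) :
    (a i : ZMod (p ^ r)) = a j := by
  have hq : 1 < p ^ r := Nat.one_lt_pow (by omega) (Fact.out : p.Prime).one_lt
  have : NeZero (p ^ r) := ⟨by omega⟩
  by_contra hne
  have hij : i ≠ j := by rintro rfl; exact hne rfl
  have hd0 : ((a i : ZMod (p ^ r)) - a j).val ≠ 0 := by
    rw [ne_eq, ZMod.val_eq_zero, sub_eq_zero]; exact hne
  have hd1 := ZMod.val_lt ((a i : ZMod (p ^ r)) - (a j : ZMod (p ^ r)))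
  obtain ⟨t, b, hb, hd⟩ := Nat.exists_eq_pow_mul_and_not_dvd hd0 p (Fact.out : p.Prime).ne_one
  have hd2 : (a i : ZMod (p ^ r)) = a j + (p ^ t * b : ℕ) := by
    rw [← hd, ZMod.natCast_zmod_val]; ring
  have hb0 : 0 < b := Nat.pos_of_ne_zero (by rintro rfl; exact hb (dvd_zero _))
  have hP : 0 < p ^ t := pow_pos (Fact.out : p.Prime).pos _
  obtain ⟨n, hn⟩ : ∃ n, p ^ r - 1 = p ^ t + n := ⟨p ^ r - 1 - p ^ t, by
    have : p ^ t ≤ p ^ t * b := Nat.le_mul_of_pos_right _ hb0
    omega⟩
  obtain ⟨J, hJ1, hJ⟩ := exists_subset_card_eq (s := (univ.erase i).erase j)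
    (n := (k + 1) * n + k) (by
      rw [card_erase_of_mem (by simp [hij.symm]), card_erase_of_mem (mem_univ _), card_univ, hc,
        show p ^ r = p ^ t + n + 1 by omega]
      have : 2 ≤ (k + 1) * p ^ t := by nlinarith
      have : (k + 1) * (p ^ t + n + 1) = (k + 1) * p ^ t + (k + 1) * n + k + 1 := by ring
      omega)
  set X : Finset ι → ℕ := fun I => es a (k + 1) I + a j * es a k I + (p ^ r - 1) with hXdef
  have hw : ((a j : ℚ) • (fun I => (es a k I : ℚ)) + fun _ => ((p ^ r - 1 : ℕ) : ℚ)) ∈ D ι k :=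
    add_mem (Submodule.smul_mem _ _ (es_mem a k)) (const_mem _ _)
  have hX : (fun I => (X I : ℚ)) = (fun I => (es a (k + 1) I : ℚ))
      + ((a j : ℚ) • (fun I => (es a k I : ℚ)) + fun _ => ((p ^ r - 1 : ℕ) : ℚ)) := by
    funext I; simp [hXdef, add_assoc]
  have hXm : (fun I => (X I : ℚ)) ∈ D ι (k + 1) :=
    hX ▸ add_mem (es_mem a _) (D_mono (by omega) hw)
  have hE : (fun I => ((b * es a k I : ℕ) : ℚ)) ∈ D ι k := by
    have : (fun I => ((b * es a k I : ℕ) : ℚ)) = (b : ℚ) • fun I => (es a k I : ℚ) := by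
      funext I; simp
    rw [this]
    exact Submodule.smul_mem _ _ (es_mem a k)
  set H : ℕ → Finset ι → ℕ := fun κ I => if p ^ t * (κ + 1) ≤ p ^ r - 1 then
    (b * es a k I).choose (κ + 1) * (X I).choose (p ^ r - 1 - p ^ t * (κ + 1)) else 0 with hH
  have h1 : ∀ I ∈ J.powerset, ∑ κ ∈ range (p ^ r - 1), (H κ I : ZMod p) = 0 := by
    intro I hI
    have hI' := (mem_powerset.1 hI).trans hJ1
    have hi : i ∉ I := fun h => by simpa using hI' h
    have hj : j ∉ I := fun h => by simpa using hI' h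
    have e1 := vand p t (X I) (b * es a k I) (p ^ r - 1)
    rw [sum_range_succ'] at e1
    simp only [mul_zero, zero_le, if_true, Nat.choose_zero_right, one_mul, Nat.sub_zero] at e1
    have e2 : X I + p ^ t * (b * es a k I)
        = (es a (k + 1) I + a j * es a k I + p ^ t * b * es a k I) + (p ^ r - 1) := by
      simp only [hXdef]; ring
    have e3 : ((es a (k + 1) I + a j * es a k I + p ^ t * b * es a k I : ℕ) : ZMod (p ^ r))
        = es a (k + 1) (insert i I) := by
      rw [es_insert a k hi, Nat.cast_add, Nat.cast_add (es a (k + 1) I) (a i * _), Nat.cast_mul,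
        Nat.cast_mul (a i), hd2]
      push_cast; ring
    rw [e2, ind, e3] at e1
    simp only [hXdef] at e1
    rw [ind, ← es_insert a k hj] at e1
    have e4 : (if (es a (k + 1) (insert i I) : ZMod (p ^ r)) = 0 then (1 : ZMod p) else 0)
        = if (es a (k + 1) (insert j I) : ZMod (p ^ r)) = 0 then 1 else 0 := by
      by_cases h : I.card < k
      · rw [es_small, es_small] <;> rw [card_insert_of_notMem (by assumption)] <;> omega
      · rw [if_neg (hz _ _), if_neg (hz _ _)] <;> rw [card_insert_of_notMem (by assumption)] <;>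
          omega
    rw [e4, right_eq_add] at e1
    rw [← e1]
    refine sum_congr rfl fun κ _ => ?_
    simp only [hH, hXdef, es_insert a k hj]
    split_ifs <;> simp
  have h2 : ∀ κ, Dl J (fun I => (H (κ + 1) I : ℚ)) = (0 : ℕ) := by
    intro κ
    simp only [hH]
    split_ifs with h
    · have := D_mul (choose_mem hE (κ + 1 + 1)) (choose_mem hXm (p ^ r - 1 - p ^ t * (κ + 1 + 1)))
      rw [Nat.cast_zero, ← Dl_zero this (J := J) ?_]
      · congr 1; funext I; simp
      · obtain ⟨c, hc⟩ : ∃ c, n = p ^ t * (κ + 1) + c := ⟨n - p ^ t * (κ + 1), by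
          have : p ^ t * (κ + 1 + 1) = p ^ t * (κ + 1) + p ^ t := by ring
          omega⟩
        have : p ^ r - 1 - p ^ t * (κ + 1 + 1) = c := by
          have : p ^ t * (κ + 1 + 1) = p ^ t * (κ + 1) + p ^ t := by ring
          omega
        rw [this, hJ, hc]
        have : κ + 1 ≤ p ^ t * (κ + 1) := Nat.le_mul_of_pos_left _ hP
        nlinarith
    · simp [Dl]
  have h3 : Dl J (fun I => (H 0 I : ℚ))
      = (b * (((k + 1) * n + k).choose k * NN k n * ∏ i ∈ J, a i) : ℕ) := by
    have := Dl_es a k (choose_mem hXm n) (Dl_choose a k hw hX n) hJ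
    push_cast
    rw [← this, ← smul_eq_mul, ← map_smul]
    congr 1
    funext I
    simp [hH, hn, mul_assoc]
  have h4 : ∑ κ ∈ range (p ^ r - 1), ∑ I ∈ J.powerset,
      (-1 : ZMod p) ^ (I.card + J.card) * H κ I = 0 := by
    rw [sum_comm]
    refine sum_eq_zero fun I hI => ?_
    rw [← mul_sum, h1 I hI, mul_zero]
  rw [show p ^ r - 1 = (p ^ r - 2) + 1 by omega, sum_range_succ', transfer p J _ _ h3,
    sum_eq_zero (fun κ _ => by rw [transfer p J _ _ (h2 κ), Nat.cast_zero]), zero_add] at h4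
  push_cast at h4
  rw [ch_one p hk, NN_one p hk, one_mul, one_mul, mul_eq_zero, prod_eq_zero_iff] at h4
  rcases h4 with h | ⟨l, -, h⟩
  · exact hb ((ZMod.natCast_eq_zero_iff _ _).1 h)
  · exact units p hr hk a hc hz l ((ZMod.natCast_eq_zero_iff _ _).1 h)

theorem const1 {q : ℕ} [NeZero q] (a : ι → ZMod q) (hc : Fintype.card ι = q - 1)
    (hz : ∀ I : Finset ι, I.Nonempty → ∑ i ∈ I, a i ≠ 0) (i j : ι) : a i = a j := by
  by_contra hne
  have hij : i ≠ j := by rintro rfl; exact hne rfl
  set S : Finset ι → Finset (ZMod q) := fun T => T.powerset.image (fun I => ∑ i ∈ I, a i) with hS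
  have key : ∀ T : Finset ι, (T ∪ {i, j}).card + 2 ≤ (S (T ∪ {i, j})).card := by
    intro T
    induction T using Finset.induction_on with
    | empty =>
      have h1 := hz {i} (by simp)
      have h2 := hz {j} (by simp)
      have h3 := hz {i, j} (by simp)
      rw [sum_singleton] at h1 h2
      rw [sum_pair hij] at h3
      have : ({0, a i, a j, a i + a j} : Finset (ZMod q)) ⊆ S (∅ ∪ {i, j}) := by
        intro x hx
        simp only [mem_insert, mem_singleton] at hx
        rcases hx with rfl | rfl | rfl | rfl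
        · exact mem_image.2 ⟨∅, by simp, by simp⟩
        · exact mem_image.2 ⟨{i}, by simp, by simp⟩
        · exact mem_image.2 ⟨{j}, by simp, by simp⟩
        · exact mem_image.2 ⟨{i, j}, by simp, sum_pair hij⟩
      refine le_trans ?_ (card_le_card this)
      rw [empty_union, card_pair hij, card_insert_of_notMem, card_insert_of_notMem, card_pair] <;>
        simp [h1, h2, hne, h1.symm, h2.symm, h3.symm]
    | insert x T _ ih =>
      rw [insert_union]
      generalize T ∪ {i, j} = U at *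
      by_cases hx : x ∈ U
      · rwa [insert_eq_of_mem hx]
      · rw [card_insert_of_notMem hx]
        have h1 : S U ⊆ S (insert x U) := image_subset_image (powerset_mono.2 (subset_insert _ _))
        have h2 : (S U).image (fun y => a x + y) ⊆ S (insert x U) := by
          intro y hy
          obtain ⟨z, hz, rfl⟩ := mem_image.1 hy
          obtain ⟨I, hI, rfl⟩ := mem_image.1 hz
          have := mem_powerset.1 hI
          exact mem_image.2 ⟨insert x I, mem_powerset.2 (insert_subset_insert _ this),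
            sum_insert fun h => hx (this h)⟩
        by_contra h3
        have h4 : S U = S (insert x U) := eq_of_subset_of_card_le h1 (by omega)
        have h5 : (S U).image (fun y => a x + y) = S U := by
          refine eq_of_subset_of_card_le (h4 ▸ h2) ?_
          rw [card_image_of_injective _ (add_right_injective _)]
        have h6 : (0 : ZMod q) ∈ S U := mem_image.2 ⟨∅, by simp, by simp⟩
        rw [← h5] at h6
        obtain ⟨z, hz', e⟩ := mem_image.1 h6
        obtain ⟨I, hI, rfl⟩ := mem_image.1 hz'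
        refine hz (insert x I) (by simp) ?_
        rw [sum_insert fun h => hx (mem_powerset.1 hI h), e]
  have h1 := key univ
  have h2 := card_le_univ (S (univ ∪ {i, j}))
  rw [ZMod.card] at h2
  rw [union_eq_left.2 (subset_univ _)] at h1 h2
  rw [card_univ] at h1
  omega

theorem result (p r s : ℕ) (hp : p.Prime) (hr : 1 ≤ r) (S : Multiset (ZMod (p ^ r)))
    (hS : S.card = p ^ s * p ^ r - 1)
    (hfree : ∀ T ≤ S, p ^ s ≤ T.card → T.esymm (p ^ s) ≠ 0) :
    ∃ a : ZMod (p ^ r), IsUnit a ∧ S = Multiset.replicate (p ^ s * p ^ r - 1) a := by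
  classical
  have := Fact.mk hp
  have hq : 1 < p ^ r := Nat.one_lt_pow (by omega) hp.one_lt
  have : NeZero (p ^ r) := ⟨by omega⟩
  obtain ⟨k, hk⟩ : ∃ k, p ^ s = k + 1 := ⟨p ^ s - 1, by have := pow_pos hp.pos s; omega⟩
  set a : S.ToType → ℕ := fun x => (x : ZMod (p ^ r)).val with ha
  have hc : Fintype.card S.ToType = (k + 1) * p ^ r - 1 := by rw [Multiset.card_coe, hS, hk]
  have hz : ∀ I : Finset S.ToType, k + 1 ≤ I.card → (es a (k + 1) I : ZMod (p ^ r)) ≠ 0 := by
    intro I hI
    have := hfree (I.val.map (fun x : S.ToType => (x : ZMod (p ^ r)))) (by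
      conv_rhs => rw [← Multiset.map_univ_coe S]
      exact Multiset.map_le_map (val_le_iff.2 (subset_univ _))) (by simpa [hk] using hI)
    rw [esymm_map_val, hk] at this
    simpa [es, ha] using this
  have hall : ∀ i j : S.ToType, (i : ZMod (p ^ r)) = j := by
    intro i j
    rcases Nat.eq_zero_or_pos k with rfl | hk1
    · refine const1 (fun x : S.ToType => (x : ZMod (p ^ r))) (by simpa using hc) ?_ i j
      intro I hI
      have := hz I (card_pos.2 hI)
      simpa [es, ha, powersetCard_one] using this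
    · simpa [ha] using const p hr hk hk1 a hc hz i j
  obtain ⟨i⟩ : Nonempty S.ToType := Fintype.card_pos_iff.1 (by
    rw [hc]; have : 2 ≤ (k + 1) * p ^ r := by nlinarith
    omega)
  refine ⟨i, ?_, ?_⟩
  · have := (ZMod.isUnit_natCast_iff_not_dvd_pow hp hr).2 (units p hr hk a hc hz i)
    simpa [ha] using this
  · rw [Multiset.eq_replicate]
    refine ⟨hS, fun b hb => ?_⟩
    exact hall ⟨b, ⟨0, Multiset.count_pos.2 hb⟩⟩ i

end Pool.Agent.Results.MP_e23efd_co.Yes
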